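import Mathlib
import Pool.Agent.W455.Cub.Trans
import Pool.Agent.W455.Cub.InstAll

set_option autoImplicit false

open Pool.Agent.Helper226 Pool.Agent.W455.Cub

universe u

namespace Pool.Agent.Results.MP_24f1ef_ag.CubicElementary

/-- For every `r ≥ 8` and every field `k` of characteristic zero, the algebra of a general cubic
form in `r` variables is generic (all its deformations have Hilbert function `(1, r, r, 1)`) and
corresponds to an elementary component of the Hilbert scheme of `2r+2` points of affine
`r`-space. -/
theorem result (k : Type u) [Field k] [CharZero k] (r : ℕ) (hr : 8 ≤ r) :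
    Nonempty (HilbertScheme k (MvPolynomial (Fin r) k) (2 * r + 2)) ∧
    ∀ 𝓗 : HilbertScheme k (MvPolynomial (Fin r) k) (2 * r + 2), CubicStatement 𝓗 := by
  obtain ⟨T⟩ := exists_TS k r hr
  exact ⟨⟨hilb k (MvPolynomial (Fin r) k) (2 * r + 2)⟩, fun 𝓗 =>
    CubicStatement.trans 𝓗 _ (main_hilb T (by omega))⟩

end Pool.Agent.Results.MP_24f1ef_ag.CubicElementary
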